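import Pool.Agent.Helper97.CG.Stmts
import Pool.Agent.Helper14.RG.InnerChart

/-!
# CG, row GLC: the chart of `GL_e / ∏ GL(V_λ)`
-/

namespace Pool.Agent.Helper61.CG

open MvPolynomial Matrix Pool.Agent.Helper14.RG Pool.Agent.Helper97.CG

universe u

section

variable {k : Type u} [Field k] {n : ℕ} (χ : Fin n → k)

lemma glc_entry (i j : Fin n) : (fun g : GL (Fin n) k => (glHom (Fin n) k g) i j) ∈
    mAlg (glHom (Fin n) k) :=
  Algebra.subset_adjoin ⟨i, j, rfl⟩

lemma glc_TT_mem (i j : Fin n) : (fun g : GL (Fin n) k => TT χ (glHom (Fin n) k g) i j) ∈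
    mAlg (glHom (Fin n) k) := by
  by_cases hij : χ i = χ j
  · simp only [TT_apply χ _ hij]
    exact glc_entry _ _
  · simp only [TT_apply_ne χ _ hij]
    exact const_mem _ 0

lemma glc_det (g : GL (Fin n) k) : (glHom (Fin n) k g).det ≠ 0 :=
  ((Matrix.isUnit_iff_isUnit_det _).mp g.isUnit).ne_zero

lemma glc_generic [Infinite k] : ∃ w : Matrix (Fin n) (Fin n) k, w.det ≠ 0 ∧ (TT χ w).det ≠ 0 := by
  obtain ⟨g, hg⟩ := exists_generic χ (1 : Matrix (Fin n) (Fin n) k) (by rw [Matrix.det_one]; exact one_ne_zero)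
  rw [mul_one] at hg
  exact ⟨g, by rw [g.2]; exact one_ne_zero, hg⟩

lemma glc_PM_ne [Infinite k] : (PM χ).det ≠ 0 := by
  obtain ⟨w, hw, hT⟩ := glc_generic χ
  intro h0
  have h1 := congrArg (eval (fun p : NP χ => (w * (TT χ w)⁻¹) p.1.1 p.1.2)) h0
  rw [RingHom.map_det, map_zero] at h1
  have h2 := PM_eq χ w hT _ (fun p => rfl)
  rw [RingHom.mapMatrix_apply, h2, Matrix.det_mul, Matrix.det_nonsing_inv,
    Ring.inverse_eq_inv'] at h1
  exact mul_ne_zero hw (inv_ne_zero hT) h1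

lemma glc_TT_PM (Y : NP χ → k) : TT χ ((PM χ).map (eval Y)) = 1 := by
  have := TT_PM χ Y (fun _ => 1)
  rwa [Matrix.diagonal_one, mul_one] at this

lemma glc_card {z : k} (hzz : z * z = 1) (π : Fin n → Fin n)
    (hπ1 : ∀ j, χ (π j) = z * χ j) (hπ2 : ∀ j, rk χ (π j) = rk χ j) (j : Fin n) :
    (blk χ (χ (π j))).card = (blk χ (χ j)).card := by
  have hχeq : ∀ m : k, (blk χ m).card ≤ (blk χ (z * m)).card := by
    intro m
    refine Finset.card_le_card_of_injOn π ?_ ?_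
    · intro i hi
      have := mem_blk.mp hi
      exact mem_blk.mpr (by rw [hπ1, this])
    · intro i hi i' hi' hii
      apply rk_inj χ
      · exact (mem_blk.mp hi).trans (mem_blk.mp hi').symm
      · rw [← hπ2 i, ← hπ2 i', hii]
  rw [hπ1]
  apply le_antisymm
  · have := hχeq (z * χ j)
    rwa [← mul_assoc, hzz, one_mul] at this
  · exact hχeq _

lemma glc_shift (g h : GL (Fin n) k) (hg : (TT χ (glHom (Fin n) k g)).det ≠ 0) {z : k}
    (hz : z ≠ 0)
    (hh : diagonal χ * glHom (Fin n) k h = z • (glHom (Fin n) k h * diagonal χ))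
    (π : Fin n → Fin n) (hπ1 : ∀ j, χ (π j) = z * χ j) (hπ2 : ∀ j, rk χ (π j) = rk χ j) :
    (TT χ (glHom (Fin n) k (g * h))).det ≠ 0 ∧
      glHom (Fin n) k (g * h) * (TT χ (glHom (Fin n) k (g * h)))⁻¹ =
        (glHom (Fin n) k g * (TT χ (glHom (Fin n) k g))⁻¹).submatrix id π := by
  rw [map_mul]
  exact PP_shift χ _ _ hg (glc_det h) z hz hh π hπ1 hπ2

/-- the chart -/
noncomputable def glcChart [Infinite k] :
    LChart (mAlg (glHom (Fin n) k)) (cm (glHom (Fin n) k) (diagonal χ))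
      (cmm (glHom (Fin n) k) (diagonal χ)) (NP χ) where
  hH := cm_le_cmm _ _
  q0 := fun g => (TT χ (glHom (Fin n) k g)).det
  q0_mem := det_mem_alg _ _ (glc_TT_mem χ)
  q0_ne := by
    obtain ⟨w, hw, hT⟩ := glc_generic χ
    refine Function.ne_iff.mpr ⟨Matrix.GeneralLinearGroup.mk'' w (isUnit_iff_ne_zero.mpr hw), ?_⟩
    exact hT
  t := fun g p => (glHom (Fin n) k g * (TT χ (glHom (Fin n) k g))⁻¹) p.1.1 p.1.2
  treg := by
    intro p
    exact mul_mem_alg _ _ _ (fun i j => le_RegU _ _ (glc_entry i j))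
      (nonsing_inv_mem_RegU _ (fun i j => le_RegU _ _ (glc_TT_mem χ i j)) (fun g hg => hg)) _ _
  sep := by
    intro g g' hg hg' htt
    have h1 : glHom (Fin n) k g * (TT χ (glHom (Fin n) k g))⁻¹ =
        glHom (Fin n) k g' * (TT χ (glHom (Fin n) k g'))⁻¹ := by
      have htt' : (fun p : NP χ => (glHom (Fin n) k g * (TT χ (glHom (Fin n) k g))⁻¹) p.1.1 p.1.2)
          = fun p : NP χ => (glHom (Fin n) k g' * (TT χ (glHom (Fin n) k g'))⁻¹) p.1.1 p.1.2 := htt
      rw [← PM_eq χ _ hg _ (fun p => rfl), ← PM_eq χ _ hg' _ (fun p => rfl), htt']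
    have hu : IsUnit (TT χ (glHom (Fin n) k g)).det := isUnit_iff_ne_zero.mpr hg
    have hu' : IsUnit (TT χ (glHom (Fin n) k g')).det := isUnit_iff_ne_zero.mpr hg'
    refine ⟨g⁻¹ * g', ?_, by rw [mul_inv_cancel_left]⟩
    have h3 : glHom (Fin n) k g' = glHom (Fin n) k g *
        ((TT χ (glHom (Fin n) k g))⁻¹ * TT χ (glHom (Fin n) k g')) := by
      rw [← mul_assoc, h1, mul_assoc, Matrix.nonsing_inv_mul _ hu', mul_one]
    have h4 : glHom (Fin n) k (g⁻¹ * g') =
        (TT χ (glHom (Fin n) k g))⁻¹ * TT χ (glHom (Fin n) k g') := by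
      have h5 : glHom (Fin n) k g⁻¹ * glHom (Fin n) k g = 1 := by
        rw [← map_mul, inv_mul_cancel, map_one]
      calc glHom (Fin n) k (g⁻¹ * g') = glHom (Fin n) k g⁻¹ * glHom (Fin n) k g' := map_mul _ _ _
        _ = glHom (Fin n) k g⁻¹ * (glHom (Fin n) k g *
            ((TT χ (glHom (Fin n) k g))⁻¹ * TT χ (glHom (Fin n) k g'))) :=
          congrArg (fun x => glHom (Fin n) k g⁻¹ * x) h3
        _ = _ := by rw [← mul_assoc, h5, one_mul]
    show diagonal χ * glHom (Fin n) k (g⁻¹ * g') = glHom (Fin n) k (g⁻¹ * g') * diagonal χ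
    rw [h4, mul_assoc, TT_comm, ← mul_assoc, ← mul_assoc, inv_comm hg (TT_comm χ _)]
  dom := by
    intro P hP
    obtain ⟨Y, hY⟩ : ∃ Y, eval Y (P * (PM χ).det) ≠ 0 := by
      by_contra hcon
      push Not at hcon
      exact mul_ne_zero hP (glc_PM_ne χ) (MvPolynomial.funext fun Y => by rw [hcon Y, map_zero])
    rw [map_mul] at hY
    have h1 : ((PM χ).map (eval Y)).det ≠ 0 := by
      have := right_ne_zero_of_mul hY
      rwa [RingHom.map_det] at this
    have h2 := glc_TT_PM χ Y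
    refine ⟨Matrix.GeneralLinearGroup.mk'' ((PM χ).map (eval Y)) (isUnit_iff_ne_zero.mpr h1),
      ?_, ?_⟩
    · show (TT χ ((PM χ).map (eval Y))).det ≠ 0
      rw [h2, Matrix.det_one]; exact one_ne_zero
    · show eval (fun p : NP χ => ((PM χ).map (eval Y) * (TT χ ((PM χ).map (eval Y)))⁻¹) p.1.1 p.1.2)
        P ≠ 0
      have h3 : (fun p : NP χ => ((PM χ).map (eval Y) * (TT χ ((PM χ).map (eval Y)))⁻¹) p.1.1 p.1.2)
          = Y := by
        funext p
        rw [h2, inv_one, mul_one, PM_eval χ Y _ _ p.2]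
      rw [h3]
      exact left_ne_zero_of_mul hY
  inv := by
    intro h hh g hg p
    have h1 : diagonal χ * glHom (Fin n) k h = (1 : k) • (glHom (Fin n) k h * diagonal χ) := by
      rw [one_smul]; exact hh
    have h2 := (glc_shift χ g h hg one_ne_zero h1 id (fun j => by simp) (fun j => rfl)).2
    show (glHom (Fin n) k (g * h) * (TT χ (glHom (Fin n) k (g * h)))⁻¹) p.1.1 p.1.2 = _
    rw [h2]
    rfl
  equiv := by
    intro h hh
    obtain ⟨z, hz, hzz, h1⟩ : ∃ z : k, z ≠ 0 ∧ z * z = 1 ∧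
        diagonal χ * glHom (Fin n) k h = z • (glHom (Fin n) k h * diagonal χ) := by
      rcases hh with hh | hh
      · exact ⟨1, one_ne_zero, one_mul 1, by rw [one_smul]; exact hh⟩
      · exact ⟨-1, neg_ne_zero.mpr one_ne_zero, by ring, by rw [neg_one_smul]; exact hh⟩
    obtain ⟨π, hπ1, hπ2⟩ := exists_pi χ _ (glc_det h) z hz h1
    have hcard := glc_card χ hzz π hπ1 hπ2
    refine ⟨Matrix.of fun p q : NP χ => if q = ⟨(p.1.1, π p.1.2), by
      have := p.2; rw [← hcard] at this; exact this⟩ then 1 else 0, fun g hg => ?_⟩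
    have h4 := glc_shift χ g h hg hz h1 π hπ1 hπ2
    refine ⟨h4.1, fun p => ?_⟩
    show (glHom (Fin n) k (g * h) * (TT χ (glHom (Fin n) k (g * h)))⁻¹) p.1.1 p.1.2 = _
    rw [h4.2]
    simp only [Matrix.of_apply, ite_mul, one_mul, zero_mul, Finset.sum_ite_eq', Finset.mem_univ,
      if_true]
    rfl

end

/-- GLC -/
theorem st_GLC (k : Type u) [Field k] [IsAlgClosed k] [CharZero k] : ST_GLC k := by
  intro e χ
  classical
  exact ⟨NP χ, inferInstance, inferInstance, ⟨glcChart χ⟩⟩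

end Pool.Agent.Helper61.CG
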